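import Pool.Agent.H810R3.Tub.Bounds

set_option autoImplicit false

/-! Local versions of the bounds for Lipschitz families of lines. -/

open MeasureTheory Set Topology ENNReal NNReal Metric
open Filter hiding ker

namespace Pool.Agent.L0h24.Gev

open Pool.Agent.H803R2.Kak Pool.Agent.H810R3.Tub

variable {d : ℕ}

/-- For almost every height `t` the section map `v ↦ b v + t v` takes almost every value at most
`M` times at points of `U` where it is differentiable with invertible derivative. -/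
def FewPreOn (U : Set (Vec d)) (M : ℕ) (b : Vec d → Vec d) : Prop :=
  ∀ᵐ t : ℝ, ∀ᵐ y : Vec d, {v | v ∈ U ∧ DifferentiableAt ℝ b v ∧ b v + t • v = y ∧
    (Dm b t v).det ≠ 0}.encard ≤ M

/-- Few preimages only depends on the values in the open set. -/
theorem fewPreOn_congr {U : Set (Vec d)} (hU : IsOpen U) {M : ℕ} {b g : Vec d → Vec d}
    (h : EqOn b g U) (hb : FewPreOn U M b) : FewPreOn U M g := by
  unfold FewPreOn at hb ⊢
  filter_upwards [hb] with t ht
  filter_upwards [ht] with y hy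
  refine le_trans (Set.encard_le_encard ?_) hy
  rintro v ⟨hv, h2, h3, h4⟩
  have he : g =ᶠ[𝓝 v] b := by
    filter_upwards [hU.mem_nhds hv] with w hw
    exact (h hw).symm
  refine ⟨hv, (he.differentiableAt_iff).1 h2, ?_, ?_⟩
  · rw [h hv]
    exact h3
  · unfold Dm at h4 ⊢
    rw [← he.fderiv_eq]
    exact h4

/-- The area inequality. -/
theorem area {U : Set (Vec d)} {L : ℝ≥0} {b : Vec d → Vec d} (hb : LipschitzWith L b) {M : ℕ} {t : ℝ}
    (ht : ∀ᵐ y : Vec d, {v | v ∈ U ∧ DifferentiableAt ℝ b v ∧ b v + t • v = y ∧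
      (Dm b t v).det ≠ 0}.encard ≤ M) {V : Set (Vec d)} (hV : MeasurableSet V)
    (hV2 : V ⊆ U) (R : ℝ) (x : Vec d) :
    ∫⁻ v in V, ker b R t x v * ENNReal.ofReal |(Dm b t v).det| ≤ M * volume (closedBall x R) := by
  set D : Set (Vec d) := {v | DifferentiableAt ℝ b v} with hD
  have hDm : MeasurableSet D := measurableSet_of_differentiableAt ℝ b
  have hae : ∀ᵐ v : Vec d, v ∈ D := hb.ae_differentiableAt
  have e1 : ∫⁻ v in V, ker b R t x v * ENNReal.ofReal |(Dm b t v).det| =
      ∫⁻ v in V ∩ D, ker b R t x v * ENNReal.ofReal |(Dm b t v).det| := by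
    apply setLIntegral_congr
    filter_upwards [hae] with v hv
    apply propext
    exact ⟨fun h => ⟨h, hv⟩, fun h => h.1⟩
  rw [e1]
  have h1 := lintegral_comp_det_le (volume : Measure (Vec d)) (φ := fun v => b v + t • v)
    (φ' := Dm b t) (s := V ∩ D) (N := M) (hV.inter hDm)
    (fun v hv => (show DifferentiableAt ℝ b v from hv.2).hasFDerivAt.add ((hasFDerivAt_id v).const_smul t))
    (Dm_measurable b t) (by
      filter_upwards [ht] with y hy
      refine le_trans (Set.encard_le_encard ?_) hy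
      rintro v ⟨⟨h1, h2⟩, h3, h4⟩
      exact ⟨hV2 h1, h2, h3, h4⟩)
    (H := (closedBall x R).indicator (fun _ => 1)) (measurable_const.indicator measurableSet_closedBall)
  refine h1.trans_eq ?_
  rw [lintegral_indicator_const measurableSet_closedBall, one_mul]

/-- Pointwise bound for the measure of the set of parameters near `x`. -/
theorem point_bound {U : Set (Vec d)} {L : ℝ≥0} {b : Vec d → Vec d} (hb : LipschitzWith L b) {M : ℕ} {t : ℝ}
    (ht : ∀ᵐ y : Vec d, {v | v ∈ U ∧ DifferentiableAt ℝ b v ∧ b v + t • v = y ∧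
      (Dm b t v).det ≠ 0}.encard ≤ M) {V : Set (Vec d)} (hV : MeasurableSet V)
    (hV2 : V ⊆ U) (R : ℝ) {r τ : ℝ} (hr : 0 < r) (hτ : 0 < τ) (x : Vec d) :
    (∫⁻ v in V, ker b R t x v) ^ (r + 1) ≤
      (M * volume (closedBall x R) + ENNReal.ofReal τ * volume V) ^ r *
        ∫⁻ v in V, ker b R t x v * W b τ v t ^ (-r) := by
  have hbc : Continuous b := hb.continuous
  set K : Set (Vec d) := {v | b v + t • v ∈ closedBall x R} with hK
  have hKm : MeasurableSet K := by
    apply IsClosed.measurableSet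
    have : K = {v | dist (b v + t • v) x ≤ R} := rfl
    rw [this]
    exact isClosed_le (by fun_prop) continuous_const
  have hker : ∀ v, ker b R t x v = K.indicator (fun _ => 1) v := by
    intro v
    unfold ker
    by_cases h : b v + t • v ∈ closedBall x R
    · rw [indicator_of_mem h, indicator_of_mem (show v ∈ K from h)]
    · rw [indicator_of_notMem h, indicator_of_notMem (show v ∉ K from h)]
  have hmul : ∀ (f : Vec d → ℝ≥0∞), ∫⁻ v in V, ker b R t x v * f v = ∫⁻ v in V ∩ K, f v := by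
    intro f
    rw [inter_comm, ← Measure.restrict_restrict hKm, ← lintegral_indicator hKm]
    congr 1
    funext v
    rw [hker]
    by_cases h : v ∈ K
    · simp [h]
    · simp [h]
  have h0 : ∫⁻ v in V, ker b R t x v = volume (V ∩ K) := by
    have := hmul (fun _ => 1)
    simp only [mul_one] at this
    rw [this]
    simp
  have hWm : Measurable (fun v => W b τ v t) := W_meas_left b τ t
  have hH := holder_w (volume.restrict (V ∩ K)) hr (w := fun v => W b τ v t) hWm.aemeasurable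
    (fun v => W_ne_zero b hτ v t) (fun v => W_ne_top b v t)
  rw [Measure.restrict_apply_univ] at hH
  rw [h0, hmul]
  refine hH.trans ?_
  gcongr
  calc ∫⁻ v in V ∩ K, W b τ v t
      ≤ ∫⁻ v in V ∩ K, (ENNReal.ofReal |(Dm b t v).det| + ENNReal.ofReal τ) := by
        apply lintegral_mono
        intro v
        show W b τ v t ≤ ENNReal.ofReal |(Dm b t v).det| + ENNReal.ofReal τ
        unfold W
        rw [← ENNReal.ofReal_add (abs_nonneg _) hτ.le]
        apply ENNReal.ofReal_le_ofReal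
        exact max_le (by linarith) (by linarith [abs_nonneg (Dm b t v).det])
    _ = (∫⁻ v in V ∩ K, ENNReal.ofReal |(Dm b t v).det|) + ENNReal.ofReal τ * volume (V ∩ K) := by
        rw [lintegral_add_right _ measurable_const, lintegral_const, Measure.restrict_apply_univ]
    _ ≤ M * volume (closedBall x R) + ENNReal.ofReal τ * volume V := by
        have := area hb ht hV hV2 R x
        rw [hmul] at this
        gcongr
        exact inter_subset_left

/-- The core estimate. -/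
theorem core (hd : 1 ≤ d) {U : Set (Vec d)} {L : ℝ≥0} {b : Vec d → Vec d} (hb : LipschitzWith L b) {M : ℕ}
    (hM : FewPreOn U M b) {V : Set (Vec d)} (hV : MeasurableSet V)
    (hV2 : V ⊆ U) (R : ℝ) {r τ : ℝ} (hr : 1 < d * r) (hτ : 0 < τ) :
    ∫⁻ t : ℝ, ∫⁻ x : Vec d, (∫⁻ v in V, ker b R t x v) ^ (r + 1) ≤
      (M * volume (closedBall (0 : Vec d) R) + ENNReal.ofReal τ * volume V) ^ r *
        (volume (closedBall (0 : Vec d) R) * (volume V *
          (d * ENNReal.ofReal (2 * (d * r) / (d * r - 1) * (τ ^ ((d : ℝ)⁻¹)) ^ (1 - d * r))))) := by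
  have hd0 : (0 : ℝ) < d := by exact_mod_cast hd
  have hr0 : 0 < r := by
    by_contra hcon
    push Not at hcon
    nlinarith
  have hbc : Continuous b := hb.continuous
  set Q := (M * volume (closedBall (0 : Vec d) R) + ENNReal.ofReal τ * volume V) ^ r with hQ
  have hvol : ∀ x : Vec d, volume (closedBall x R) = volume (closedBall (0 : Vec d) R) :=
    fun x => Measure.addHaar_closedBall_center _ _ _
  have hstep : ∀ t : ℝ, (∫⁻ x : Vec d, ∫⁻ v in V, ker b R t x v * W b τ v t ^ (-r)) =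
      volume (closedBall (0 : Vec d) R) * ∫⁻ v in V, W b τ v t ^ (-r) := by
    intro t
    have hWm : Measurable (fun v => W b τ v t ^ (-r)) := (W_meas_left b τ t).pow_const _
    rw [lintegral_lintegral_swap (prod_meas hbc R τ r t).aemeasurable,
      ← lintegral_const_mul _ hWm]
    refine lintegral_congr fun v => ?_
    have h1 : ∀ x, ker b R t x v * W b τ v t ^ (-r) =
        W b τ v t ^ (-r) * (closedBall (b v + t • v) R).indicator (fun _ => 1) x := by
      intro x
      rw [ker_symm, mul_comm]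
    simp only [h1]
    rw [lintegral_const_mul _ (measurable_const.indicator measurableSet_closedBall),
      lintegral_indicator_const measurableSet_closedBall, one_mul, hvol, mul_comm]
  calc ∫⁻ t : ℝ, ∫⁻ x : Vec d, (∫⁻ v in V, ker b R t x v) ^ (r + 1)
      ≤ ∫⁻ t : ℝ, ∫⁻ x : Vec d, Q * ∫⁻ v in V, ker b R t x v * W b τ v t ^ (-r) := by
        apply lintegral_mono_ae
        filter_upwards [hM] with t ht
        apply lintegral_mono
        intro x
        have := point_bound hb ht hV hV2 R hr0 hτ x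
        rw [hvol] at this
        exact this
    _ = ∫⁻ t : ℝ, Q * (volume (closedBall (0 : Vec d) R) * ∫⁻ v in V, W b τ v t ^ (-r)) := by
        refine lintegral_congr fun t => ?_
        rw [← hstep t]
        exact lintegral_const_mul _ (prod_meas hbc R τ r t).lintegral_prod_right'
    _ = Q * (volume (closedBall (0 : Vec d) R) * ∫⁻ t : ℝ, ∫⁻ v in V, W b τ v t ^ (-r)) := by
        have h1 : Measurable (fun t : ℝ => ∫⁻ v in V, W b τ v t ^ (-r)) :=
          (Wpow_meas' b τ r).lintegral_prod_right'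
        rw [lintegral_const_mul _ (h1.const_mul _), lintegral_const_mul _ h1]
    _ = Q * (volume (closedBall (0 : Vec d) R) * ∫⁻ v in V, ∫⁻ t : ℝ, W b τ v t ^ (-r)) := by
        rw [lintegral_lintegral_swap (Wpow_meas' b τ r).aemeasurable]
    _ ≤ Q * (volume (closedBall (0 : Vec d) R) * ∫⁻ v in V,
          (d * ENNReal.ofReal (2 * (d * r) / (d * r - 1) * (τ ^ ((d : ℝ)⁻¹)) ^ (1 - d * r)))) := by
        gcongr with v
        exact weight_int hd b hr hτ v
    _ = _ := by
        rw [lintegral_const, Measure.restrict_apply_univ, mul_comm (volume V)]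

theorem main_int (hd : 1 ≤ d) {ι : Type} [Fintype ι] {L K S : ℝ≥0} {M : ℕ} {b : Vec d → Vec d}
    {U : Set (Vec d)} (hb : LipschitzWith L b) (hM : FewPreOn U M b)
    {δ : ℝ} (hδ : 0 < δ) (hδ1 : δ < 1) (v β : ι → Vec d) (s : ι → ℝ) (hv : ∀ i, ‖v i‖ ≤ 1)
    (hs : ∀ i, |s i| ≤ S) (hβ : ∀ i, ‖β i - b (v i)‖ ≤ K * δ)
    (hsep : ∀ i j, i ≠ j → δ ≤ ‖v i - v j‖) (hU : ∀ i, ball (v i) (δ / 2) ⊆ U) {N : ℝ} (hN : N = Fintype.card ι) (hN1 : 1 ≤ N)
    {r : ℝ} (hr : 1 < d * r) :
    ∫⁻ t : ℝ, ∫⁻ x : Vec d, Fe δ v β s x t ^ (r + 1) ≤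
      ENNReal.ofReal ((M * (2 * (4 + K + L + S)) ^ d + 1) ^ r * (2 * (4 + K + L + S)) ^ d * d *
        (2 * (d * r) / (d * r - 1)) * ((δ / 2) ^ d * om d) * (N * (N⁻¹ ^ ((d : ℝ)⁻¹)) ^ (1 - d * r))) := by
  classical
  have hd0 : (0 : ℝ) < d := by exact_mod_cast hd
  have hr0 : 0 < r := by
    by_contra hcon
    push Not at hcon
    nlinarith
  have hL0 : (0 : ℝ) ≤ L := L.2
  have hK0 : (0 : ℝ) ≤ K := K.2
  have hS0 : (0 : ℝ) ≤ S := S.2
  have hN0 : 0 < N := by linarith
  set g : ℝ := (δ / 2) ^ d * om d with hg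
  have hg0 : 0 < g := mul_pos (by positivity) om_pos
  set A : ℝ := (2 * (4 + K + L + S)) ^ d with hA
  have hA0 : 0 < A := by positivity
  set c : ℝ := 2 * (d * r) / (d * r - 1) with hc
  have hc0 : 0 < c := div_pos (by linarith) (by linarith)
  set ρ : ℝ := (N⁻¹ ^ ((d : ℝ)⁻¹)) ^ (1 - d * r) with hρ
  have hρ0 : 0 < ρ := Real.rpow_pos_of_pos (Real.rpow_pos_of_pos (inv_pos.2 hN0) _) _
  set R : ℝ := (4 + K + L + S) * δ with hR
  have hR0 : 0 < R := by positivity
  set V : Set (Vec d) := ⋃ i, ball (v i) (δ / 2) with hV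
  have hVm : MeasurableSet V := MeasurableSet.iUnion fun i => measurableSet_ball
  have hV2 : V ⊆ U := iUnion_subset hU
  have hβ0 : volume (ball (0 : Vec d) (δ / 2)) = ENNReal.ofReal g := vol_ball hd (by linarith)
  have hBR : volume (closedBall (0 : Vec d) R) = ENNReal.ofReal (A * g) := by
    rw [vol_closedBall hR0]
    congr 1
    rw [hA, hg, hR, ← mul_assoc, ← mul_pow]
    congr 2
    ring
  have hVv : volume V ≤ ENNReal.ofReal (N * g) := by
    calc volume V ≤ ∑' i, volume (ball (v i) (δ / 2)) := measure_iUnion_le _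
      _ = ∑ i : ι, ENNReal.ofReal g := by
          rw [tsum_fintype]
          refine Finset.sum_congr rfl fun i _ => ?_
          rw [← hβ0]
          exact Measure.addHaar_ball_center volume (v i) (δ / 2)
      _ = ENNReal.ofReal (N * g) := by
          rw [Finset.sum_const, Finset.card_univ, nsmul_eq_mul, hN, ENNReal.ofReal_mul (Nat.cast_nonneg _),
            ENNReal.ofReal_natCast]
  have hcore := core hd hb hM hVm hV2 R (τ := N⁻¹) hr (inv_pos.2 hN0)
  have hRHS : (M * volume (closedBall (0 : Vec d) R) + ENNReal.ofReal N⁻¹ * volume V) ^ r *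
        (volume (closedBall (0 : Vec d) R) * (volume V *
          (d * ENNReal.ofReal (2 * (d * r) / (d * r - 1) * (N⁻¹ ^ ((d : ℝ)⁻¹)) ^ (1 - d * r))))) ≤
      ENNReal.ofReal (((M * A + 1) ^ r * A * d * c * g * (N * ρ)) * g ^ (r + 1)) := by
    have h1 : M * volume (closedBall (0 : Vec d) R) + ENNReal.ofReal N⁻¹ * volume V ≤
        ENNReal.ofReal ((M * A + 1) * g) := by
      calc M * volume (closedBall (0 : Vec d) R) + ENNReal.ofReal N⁻¹ * volume V
          ≤ M * ENNReal.ofReal (A * g) + ENNReal.ofReal N⁻¹ * ENNReal.ofReal (N * g) := by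
            rw [hBR]
            gcongr
        _ = ENNReal.ofReal ((M * A + 1) * g) := by
            rw [← ENNReal.ofReal_natCast M, ← ENNReal.ofReal_mul (Nat.cast_nonneg _),
              ← ENNReal.ofReal_mul (by positivity), ← ENNReal.ofReal_add (by positivity) (by positivity)]
            congr 1
            field_simp
    calc _ ≤ (ENNReal.ofReal ((M * A + 1) * g)) ^ r * (ENNReal.ofReal (A * g) * (ENNReal.ofReal (N * g) *
          (d * ENNReal.ofReal (c * ρ)))) := by
          rw [hBR] at h1 ⊢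
          exact mul_le_mul' (ENNReal.rpow_le_rpow h1 hr0.le)
            (mul_le_mul' le_rfl (mul_le_mul' hVv le_rfl))
      _ = ENNReal.ofReal (((M * A + 1) ^ r * A * d * c * g * (N * ρ)) * g ^ (r + 1)) := by
          rw [ENNReal.ofReal_rpow_of_pos (by positivity), ← ENNReal.ofReal_natCast d,
            ← ENNReal.ofReal_mul (by positivity), ← ENNReal.ofReal_mul (by positivity),
            ← ENNReal.ofReal_mul (by positivity), ← ENNReal.ofReal_mul (by positivity)]
          congr 1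
          rw [Real.mul_rpow (by positivity) hg0.le, Real.rpow_add_one hg0.ne']
          ring
  have hLHS : (∫⁻ t : ℝ, ∫⁻ x : Vec d, Fe δ v β s x t ^ (r + 1)) * ENNReal.ofReal (g ^ (r + 1)) ≤
      ∫⁻ t : ℝ, ∫⁻ x : Vec d, (∫⁻ w in V, ker b R t x w) ^ (r + 1) := by
    rw [← lintegral_mul_const' _ _ ENNReal.ofReal_ne_top]
    refine lintegral_mono fun t => ?_
    simp only
    rw [← lintegral_mul_const' _ _ ENNReal.ofReal_ne_top]
    refine lintegral_mono fun x => ?_
    simp only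
    have h1 := Fe_le hb hδ hδ1 v β s hv hs hβ hsep x t
    rw [hβ0] at h1
    have h2 : ENNReal.ofReal (g ^ (r + 1)) = (ENNReal.ofReal g) ^ (r + 1) :=
      (ENNReal.ofReal_rpow_of_pos hg0).symm
    rw [h2, ← ENNReal.mul_rpow_of_nonneg _ _ (by linarith)]
    exact ENNReal.rpow_le_rpow h1 (by linarith)
  have hG0 : ENNReal.ofReal (g ^ (r + 1)) ≠ 0 := by
    rw [ne_eq, ENNReal.ofReal_eq_zero, not_le]
    exact Real.rpow_pos_of_pos hg0 _
  have hfin := hLHS.trans (hcore.trans hRHS)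
  rw [ENNReal.ofReal_mul (by positivity)] at hfin
  exact (ENNReal.mul_le_mul_iff_left hG0 ENNReal.ofReal_ne_top).1 hfin

/-- The case of a globally Lipschitz map, with an unspecified form of the constant. -/
theorem aux (d : ℕ) (hd : 1 ≤ d) (q : ℝ) (hq : ((d : ℝ) + 1) / d < q) :
    ∃ D : ℝ, 0 < D ∧ ∀ (L K S : ℝ≥0) (M : ℕ) (U : Set (Vec d)) (b : Vec d → Vec d), LipschitzWith L b → FewPreOn U M b →
      ∀ δ : ℝ, 0 < δ → δ < 1 → ∀ (ι : Type) [Fintype ι] (v β : ι → Vec d) (s : ι → ℝ),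
        (∀ i, ‖v i‖ ≤ 1) → (∀ i, |s i| ≤ S) → (∀ i, ‖β i - b (v i)‖ ≤ K * δ) →
        (∀ i j, i ≠ j → δ ≤ ‖dir (v i) - dir (v j)‖) → (∀ i, ball (v i) (δ / 2) ⊆ U) → ∀ X : ℝ, 1 ≤ X → 2 * (4 + K + L + S) ≤ X →
        eLpNorm (fun y : Space d => ∑ i,
            (tube δ (dir (v i)) (WithLp.toLp 2 (β i + s i • v i, s i))).indicator (fun _ => (1 : ℝ)) y)
            (ENNReal.ofReal q) volume
          ≤ ENNReal.ofReal (D * (1 + M : ℝ) ^ (1 - 1 / q) * X ^ d * δ ^ ((d : ℝ) / q) *
            (Fintype.card ι : ℝ) ^ (1 - 1 / (q * d))) := by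
  have hd0 : (0 : ℝ) < d := by exact_mod_cast hd
  have hq0 : 0 < q := lt_trans (by positivity) hq
  have hdq : (d : ℝ) + 1 < q * d := by rwa [div_lt_iff₀ hd0] at hq
  have hr : 1 < (d : ℝ) * (q - 1) := by nlinarith
  have hq1 : 0 < q - 1 := by
    by_contra hcon
    push Not at hcon
    nlinarith
  set E : ℝ := d * (2 * (d * (q - 1)) / (d * (q - 1) - 1)) * ((1 / 2) ^ d * om d) with hE
  have hc0 : 0 < 2 * (d * (q - 1)) / (d * (q - 1) - 1) := div_pos (by linarith) (by linarith)
  have hE0 : 0 < E := by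
    have := om_pos (d := d)
    positivity
  refine ⟨E ^ (1 / q), Real.rpow_pos_of_pos hE0 _, ?_⟩
  intro L K S M U b hb hM δ hδ hδ1 ι _ v β s hv hs hβ hsep hU X hX1 hX
  have hL0 : (0 : ℝ) ≤ L := L.2
  have hK0 : (0 : ℝ) ≤ K := K.2
  have hS0 : (0 : ℝ) ≤ S := S.2
  have hM0 : (0 : ℝ) ≤ M := Nat.cast_nonneg _
  have hX0 : 0 < X := by linarith
  have hsep' : ∀ i j, i ≠ j → δ ≤ ‖v i - v j‖ := fun i j hij => (hsep i j hij).trans (dir_sub_le _ _)
  rcases isEmpty_or_nonempty ι with he | hne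
  · have : (fun y : Space d => ∑ i,
            (tube δ (dir (v i)) (WithLp.toLp 2 (β i + s i • v i, s i))).indicator (fun _ => (1 : ℝ)) y) =
          fun _ => 0 := by
      funext y
      simp
    rw [this, eLpNorm_zero']
    exact zero_le
  have hN1 : (1 : ℝ) ≤ (Fintype.card ι : ℝ) := by
    have := Fintype.card_pos (α := ι)
    exact_mod_cast this
  set N : ℝ := (Fintype.card ι : ℝ) with hN
  have hN0 : 0 < N := by linarith
  have hint := main_int hd hb hM hδ hδ1 v β s hv hs hβ hsep' hU hN hN1 hr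
  rw [sub_add_cancel] at hint
  have hval : (M * (2 * (4 + K + L + S)) ^ d + 1 : ℝ) ^ (q - 1) * (2 * (4 + K + L + S)) ^ d * d *
        (2 * (d * (q - 1)) / (d * (q - 1) - 1)) * ((δ / 2) ^ d * om d) *
        (N * (N⁻¹ ^ ((d : ℝ)⁻¹)) ^ (1 - d * (q - 1))) ≤
      (E * (1 + M : ℝ) ^ (q - 1) * (X ^ d) ^ q) * δ ^ d * N ^ (q - 1 / d) := by
    have e1 : N * (N⁻¹ ^ ((d : ℝ)⁻¹)) ^ (1 - d * (q - 1)) = N ^ (q - 1 / d) := by
      rw [Real.inv_rpow hN0.le, ← Real.rpow_neg hN0.le, ← Real.rpow_mul hN0.le]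
      nth_rewrite 1 [← Real.rpow_one N]
      rw [← Real.rpow_add hN0]
      congr 1
      field_simp
      ring
    have e2 : (2 * (4 + K + L + S) : ℝ) ^ d ≤ X ^ d := by
      apply pow_le_pow_left₀ (by positivity) hX
    have e3 : (M * (2 * (4 + K + L + S)) ^ d + 1 : ℝ) ≤ (1 + M) * X ^ d := by
      have h1 : (1 : ℝ) ≤ X ^ d := one_le_pow₀ hX1
      nlinarith [mul_le_mul_of_nonneg_left e2 hM0]
    have e4 : (M * (2 * (4 + K + L + S)) ^ d + 1 : ℝ) ^ (q - 1) ≤
        (1 + M : ℝ) ^ (q - 1) * (X ^ d) ^ (q - 1) := by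
      rw [← Real.mul_rpow (by positivity) (by positivity)]
      exact Real.rpow_le_rpow (by positivity) e3 hq1.le
    have e5 : (X ^ d : ℝ) ^ q = (X ^ d) ^ (q - 1) * X ^ d := by
      conv_lhs => rw [← sub_add_cancel q 1]
      rw [Real.rpow_add_one (by positivity)]
    have hom := om_pos (d := d)
    have hE' : (d : ℝ) * (2 * (d * (q - 1)) / (d * (q - 1) - 1)) * ((δ / 2) ^ d * om d) = E * δ ^ d := by
      rw [hE, div_pow, div_pow, one_pow]
      ring
    rw [e1]
    calc (M * (2 * (4 + K + L + S)) ^ d + 1 : ℝ) ^ (q - 1) * (2 * (4 + K + L + S)) ^ d * d *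
        (2 * (d * (q - 1)) / (d * (q - 1) - 1)) * ((δ / 2) ^ d * om d) * N ^ (q - 1 / d)
        = ((M * (2 * (4 + K + L + S)) ^ d + 1 : ℝ) ^ (q - 1) * (2 * (4 + K + L + S)) ^ d) *
          (d * (2 * (d * (q - 1)) / (d * (q - 1) - 1)) * ((δ / 2) ^ d * om d)) * N ^ (q - 1 / d) := by ring
      _ ≤ (((1 + M : ℝ) ^ (q - 1) * (X ^ d) ^ (q - 1)) * X ^ d) *
          (d * (2 * (d * (q - 1)) / (d * (q - 1) - 1)) * ((δ / 2) ^ d * om d)) * N ^ (q - 1 / d) := by
          gcongr
      _ = (E * (1 + M : ℝ) ^ (q - 1) * (X ^ d) ^ q) * δ ^ d * N ^ (q - 1 / d) := by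
          rw [hE', e5]
          ring
  have hint := hint.trans (ENNReal.ofReal_le_ofReal hval)
  -- the integral over the whole space
  set f : Space d → ℝ := fun y => ∑ i,
    (tube δ (dir (v i)) (WithLp.toLp 2 (β i + s i • v i, s i))).indicator (fun _ => (1 : ℝ)) y with hf
  have hfm : Measurable f := by
    apply Finset.measurable_sum
    intro i _
    exact measurable_const.indicator (tube_closed _ _ _).measurableSet
  have hmp := WithLp.volume_preserving_toLp (Vec d) ℝ
  have hS : ∫⁻ y : Space d, ‖f y‖ₑ ^ q = ∫⁻ t : ℝ, ∫⁻ x : Vec d, Fe δ v β s x t ^ q := by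
    have hg : Measurable (fun y : Space d => ‖f y‖ₑ ^ q) := hfm.enorm.pow_const _
    rw [← hmp.lintegral_comp hg]
    have hg2 : Measurable (fun p : Vec d × ℝ => ‖f (WithLp.toLp 2 p)‖ₑ ^ q) := hg.comp hmp.measurable
    rw [Measure.volume_eq_prod, lintegral_prod_symm _ hg2.aemeasurable]
    refine lintegral_congr fun t => lintegral_congr fun x => ?_
    rw [hf]
    simp only
    rw [enorm_sum]
  have hp0 : ENNReal.ofReal q ≠ 0 := by
    rw [ne_eq, ENNReal.ofReal_eq_zero, not_le]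
    exact hq0
  rw [eLpNorm_eq_lintegral_rpow_enorm_toReal hp0 ENNReal.ofReal_ne_top, ENNReal.toReal_ofReal hq0.le, hS]
  calc (∫⁻ t : ℝ, ∫⁻ x : Vec d, Fe δ v β s x t ^ q) ^ (1 / q)
      ≤ (ENNReal.ofReal ((E * (1 + M : ℝ) ^ (q - 1) * (X ^ d) ^ q) * δ ^ d * N ^ (q - 1 / d))) ^ (1 / q) :=
        ENNReal.rpow_le_rpow hint (by positivity)
    _ = ENNReal.ofReal (((E * (1 + M : ℝ) ^ (q - 1) * (X ^ d) ^ q) * δ ^ d * N ^ (q - 1 / d)) ^ (1 / q)) :=
        ENNReal.ofReal_rpow_of_pos (by positivity)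
    _ = ENNReal.ofReal (E ^ (1 / q) * (1 + M : ℝ) ^ (1 - 1 / q) * X ^ d * δ ^ ((d : ℝ) / q) *
          N ^ (1 - 1 / (q * d))) := by
        congr 1
        rw [Real.mul_rpow (by positivity) (by positivity), Real.mul_rpow (by positivity) (by positivity),
          Real.mul_rpow (by positivity) (by positivity), Real.mul_rpow hE0.le (by positivity),
          ← Real.rpow_natCast δ d, ← Real.rpow_mul hδ.le, ← Real.rpow_mul hN0.le,
          ← Real.rpow_mul (by positivity), ← Real.rpow_mul (by positivity)]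
        have f1 : (q - 1) * (1 / q) = 1 - 1 / q := by field_simp
        have f2 : q * (1 / q) = 1 := by field_simp
        have f3 : (d : ℝ) * (1 / q) = d / q := by ring
        have f4 : (q - 1 / d) * (1 / q) = 1 - 1 / (q * d) := by field_simp
        rw [f1, f2, f3, f4, Real.rpow_one]

/-- The bound for locally Lipschitz families of lines with multiplicity at most `M` on an open set. -/
theorem lipschitzOn (d : ℕ) (hd : 1 ≤ d) (q : ℝ) (hq : ((d : ℝ) + 1) / d < q) :
    ∃ C : ℝ, 0 < C ∧ ∀ (L K S : ℝ≥0) (M : ℕ) (U : Set (Vec d)) (b : Vec d → Vec d), IsOpen U →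
      LipschitzOnWith L b U → FewPreOn U M b →
      ∀ δ : ℝ, 0 < δ → δ < 1 → ∀ (ι : Type) [Fintype ι] (v β : ι → Vec d) (s : ι → ℝ),
        (∀ i, ‖v i‖ ≤ 1) → (∀ i, |s i| ≤ S) → (∀ i, ‖β i - b (v i)‖ ≤ K * δ) →
        (∀ i j, i ≠ j → δ ≤ ‖dir (v i) - dir (v j)‖) → (∀ i, ball (v i) (δ / 2) ⊆ U) →
        eLpNorm (fun y : Space d => ∑ i,
            (tube δ (dir (v i)) (WithLp.toLp 2 (β i + s i • v i, s i))).indicator (fun _ => (1 : ℝ)) y)
            (ENNReal.ofReal q) volume
          ≤ ENNReal.ofReal (C * (1 + M : ℝ) ^ (1 - 1 / q) * (1 + K + L + S : ℝ) ^ d *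
              δ ^ ((d : ℝ) / q) * (Fintype.card ι : ℝ) ^ (1 - 1 / (q * d))) := by
  obtain ⟨D, hD0, hD⟩ := aux d hd q hq
  set c : ℝ≥0 := lipschitzExtensionConstant (Vec d) with hc
  have hc0 : (0 : ℝ) ≤ c := c.2
  refine ⟨D * (8 * (1 + c)) ^ d, by positivity, ?_⟩
  intro L K S M U b hUo hb hM δ hδ hδ1 ι _ v β s hv hs hβ hsep hU
  have hL0 : (0 : ℝ) ≤ L := L.2
  have hK0 : (0 : ℝ) ≤ K := K.2
  have hS0 : (0 : ℝ) ≤ S := S.2
  obtain ⟨g, hg1, hg2⟩ := hb.extend_finite_dimension
  have hgM : FewPreOn U M g := fewPreOn_congr hUo hg2 hM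
  have hβ' : ∀ i, ‖β i - g (v i)‖ ≤ K * δ := by
    intro i
    rw [← hg2 (hU i (mem_ball_self (by linarith)))]
    exact hβ i
  have key := hD (lipschitzExtensionConstant (Vec d) * L) K S M U g hg1 hgM δ hδ hδ1 ι v β s hv hs hβ' hsep hU
    (8 * (1 + c) * (1 + K + L + S)) (by nlinarith [mul_nonneg hc0 (show (0:ℝ) ≤ 1 + K + L + S by positivity)])
    (by
      rw [← hc]
      push_cast
      nlinarith [mul_nonneg hc0 hL0, mul_nonneg hc0 hK0, mul_nonneg hc0 hS0])
  refine key.trans (le_of_eq ?_)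
  congr 1
  rw [mul_pow (8 * (1 + (c : ℝ))) (1 + K + L + S : ℝ) d]
  ring

theorem pmap_fewOn (hd : 1 ≤ d) {k : ℕ} (hk : 1 ≤ k) (P : Fin d → MvPolynomial (Fin d) ℝ)
    (hP : ∀ j, (P j).totalDegree ≤ k) (U : Set (Vec d)) :
    FewPreOn U (((k * d + 1) ^ d) ^ d) (pmap P) := by
  refine Filter.Eventually.of_forall fun t => ?_
  set φ : Fin d → MvPolynomial (Fin d) ℝ := fun j => P j + MvPolynomial.C t * MvPolynomial.X j with hφ
  have hφd : ∀ j, (φ j).totalDegree ≤ k := by
    intro j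
    refine (MvPolynomial.totalDegree_add _ _).trans (max_le (hP j) ?_)
    refine (MvPolynomial.totalDegree_mul _ _).trans ?_
    rw [MvPolynomial.totalDegree_C, MvPolynomial.totalDegree_X]
    omega
  have h1 := few hd (J := (k * d + 1) ^ d) rfl φ hφd
  have h2 := (EuclideanSpace.volume_preserving_symm_measurableEquiv_toLp (Fin d)).quasiMeasurePreserving.ae h1
  filter_upwards [h2] with y hy
  refine le_trans ?_ hy
  have hinj : Function.Injective (fun v : Vec d => (fun i => v i : Fin d → ℝ)) := by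
    intro v w h
    ext i
    exact congr_fun h i
  rw [← hinj.encard_image]
  apply Set.encard_le_encard
  rintro _ ⟨v, ⟨_, _, hv, _⟩, rfl⟩
  intro i
  rw [hφ]
  simp only [map_add, map_mul, MvPolynomial.eval_C, MvPolynomial.eval_X]
  rw [← hv]
  rfl

end Pool.Agent.L0h24.Gev
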