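import Pool.Agent.L0h24.Gev.Cells

set_option autoImplicit false

/-! Families of lines with controlled derivatives: a bound which is uniform in the order, and
Gevrey families. -/

open MeasureTheory Set Topology ENNReal NNReal Metric
open Filter hiding ker pmap

namespace Pool.Agent.L0h24.Gev

open Pool.Agent.H803R2.Kak Pool.Agent.H810R3.Tub

/-- The constant polynomial map. -/
noncomputable def cpol {d : ℕ} (c : Vec d) (a : Fin d) : MvPolynomial (Fin d) ℝ := MvPolynomial.C (c a)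

theorem cpol_eval {d : ℕ} (c v : Vec d) : pmap (cpol c) v = c := by
  ext a
  show MvPolynomial.eval (fun i => v i) (MvPolynomial.C (c a)) = _
  rw [MvPolynomial.eval_C]

/-- Variation of a map with bounded derivative on the unit ball. -/
theorem lip_unit {d : ℕ} {b : Vec d → Vec d} (hb : ContDiff ℝ 1 b) {L : ℝ}
    (hA : ∀ v, ‖v‖ ≤ 1 → ‖iteratedFDeriv ℝ 1 b v‖ ≤ L) {v w : Vec d} (hv : ‖v‖ ≤ 1) (hw : ‖w‖ ≤ 1) :
    ‖b v - b w‖ ≤ L * ‖v - w‖ := by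
  refine (convex_closedBall (0 : Vec d) 1).norm_image_sub_le_of_norm_fderiv_le (𝕜 := ℝ)
    (f := b) (C := L) (fun x _ => (hb.differentiable one_ne_zero).differentiableAt) (fun x hx => ?_)
    (by simpa using hw) (by simpa using hv)
  have h := hA x (by simpa using hx)
  rwa [← norm_iteratedFDeriv_one]

/-- The bound for families of lines with bounds for the derivatives up to the order `k + 1`,
uniformly in `k`. -/
theorem uniform (d : ℕ) (hd : 1 ≤ d) (q : ℝ) (hq : ((d : ℝ) + 1) / d < q) :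
    ∃ C : ℝ, 0 < C ∧ ∀ (k : ℕ) (L K S : ℝ≥0) (R : ℝ) (b : Vec d → Vec d), 1 ≤ R →
      ContDiff ℝ (k + 1 : ℕ) b →
      (∀ j, 1 ≤ j → j ≤ k + 1 → ∀ v, ‖v‖ ≤ 1 →
        ‖iteratedFDeriv ℝ j b v‖ ≤ L * R ^ (j - 1) * j.factorial) →
      ∀ δ : ℝ, 0 < δ → δ < 1 → ∀ (ι : Type) [Fintype ι] (v β : ι → Vec d) (s : ι → ℝ),
        (∀ i, ‖v i‖ ≤ 1) → (∀ i, |s i| ≤ S) → (∀ i, ‖β i - b (v i)‖ ≤ K * δ) →
        (∀ i j, i ≠ j → δ ≤ ‖dir (v i) - dir (v j)‖) →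
        eLpNorm (fun y : Space d => ∑ i,
            (tube δ (dir (v i)) (WithLp.toLp 2 (β i + s i • v i, s i))).indicator (fun _ => (1 : ℝ)) y)
            (ENNReal.ofReal q) volume
          ≤ ENNReal.ofReal (C * (k + 1 : ℝ) ^ ((d : ℝ) ^ 2 * (1 - 1 / q)) *
              (R * δ ^ (-(1 / ((k : ℝ) + 1)))) ^ (1 / q) *
              (1 + K + L + S : ℝ) ^ d * δ ^ ((d : ℝ) / q) *
              (Fintype.card ι : ℝ) ^ (1 - 1 / (q * d))) := by
  obtain ⟨D, hD0, hD⟩ := cells d hd q hq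
  have hd0 : (0 : ℝ) < d := by exact_mod_cast hd
  have hd1 : (1 : ℝ) ≤ d := by exact_mod_cast hd
  have hq0 : 0 < q := lt_trans (by positivity) hq
  refine ⟨D * (4 * d) ^ (1 / q) * 5 ^ d * d ^ d, by positivity, ?_⟩
  intro k L K S R b hR hb hA δ hδ hδ1 ι _ v β s hv hs hβ hsep
  have hL0 : (0 : ℝ) ≤ L := L.2
  have hK0 : (0 : ℝ) ≤ K := K.2
  have hS0 : (0 : ℝ) ≤ S := S.2
  have hR0 : 0 < R := by linarith
  have hk0 : (0 : ℝ) ≤ k := Nat.cast_nonneg k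
  set σ : ℝ := δ ^ (1 / ((k : ℝ) + 1)) with hσ
  have hσ0 : 0 < σ := Real.rpow_pos_of_pos hδ _
  have hσ1 : σ ≤ 1 := Real.rpow_le_one hδ.le hδ1.le (by positivity)
  have hσk : σ ^ (k + 1) = δ := by
    rw [hσ, ← Real.rpow_natCast, ← Real.rpow_mul hδ.le]
    push_cast
    rw [one_div, inv_mul_cancel₀ (by positivity), Real.rpow_one]
  have hσi : δ ^ (-(1 / ((k : ℝ) + 1))) = σ⁻¹ := by rw [hσ, Real.rpow_neg hδ.le]
  rw [hσi]
  have hkp : 1 ≤ (k + 1 : ℝ) ^ ((d : ℝ) ^ 2 * (1 - 1 / q)) := by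
    apply Real.one_le_rpow (by linarith)
    have hdq : (d : ℝ) + 1 < q * d := by rwa [div_lt_iff₀ hd0] at hq
    have hq1 : 1 ≤ q := by nlinarith
    have : 0 ≤ 1 - 1 / q := by
      rw [sub_nonneg, div_le_one hq0]; exact hq1
    positivity
  set Δ : ℝ := δ ^ ((d : ℝ) / q) * (Fintype.card ι : ℝ) ^ (1 - 1 / (q * d)) with hΔ
  have hΔ0 : 0 ≤ Δ := by positivity
  rcases le_or_gt (4 * (R * δ)) 1 with hc | hc
  · -- Taylor polynomials on cells of side `σ / (4 d R)`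
    set ρ : ℝ := σ / (4 * d * R) with hρ
    have hρ0 : 0 < ρ := by positivity
    have hρ1 : ρ ≤ 1 := by
      rw [hρ, div_le_one (by positivity)]
      nlinarith
    have hdρ : d * ρ = σ / (4 * R) := by rw [hρ]; field_simp
    have hrR : (d * ρ + δ) * R ≤ 1 / 2 := by
      have : (d * ρ + δ) * R = σ / 4 + R * δ := by rw [hdρ]; field_simp
      rw [this]
      linarith
    have key := hD k L (4 * L) K S b δ ρ hδ hδ1 hρ0 hρ1 (by
      intro w hw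
      refine ⟨tpol b k w, tpol_deg b k w, ?_, ?_⟩
      · exact tpol_lip' hR0.le (by positivity) hrR (fun j hj hjk => hA j hj (by omega) w hw)
      · intro v hv hvw
        refine (taylor' hb hL0 hR0.le (fun v hv => ?_) hv hw).trans ?_
        · have := hA (k + 1) (by omega) le_rfl v hv
          rwa [Nat.add_sub_cancel] at this
        · have h1 : ‖v - w‖ ^ (k + 1) ≤ (σ / (4 * R)) ^ (k + 1) :=
            pow_le_pow_left₀ (norm_nonneg _) (hvw.trans (le_of_eq hdρ)) _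
          have h2 : ((k : ℝ) + 1) ≤ 4 ^ (k + 1) := by
            have h3 : k + 1 < 2 ^ (k + 1) := Nat.lt_two_pow_self
            have h4 : (2 : ℕ) ^ (k + 1) ≤ 4 ^ (k + 1) := Nat.pow_le_pow_left (by norm_num) _
            exact_mod_cast (h3.le.trans h4)
          have h5 : 1 ≤ R := hR
          calc L * R ^ k * (k + 1) * ‖v - w‖ ^ (k + 1)
              ≤ L * R ^ k * 4 ^ (k + 1) * (σ / (4 * R)) ^ (k + 1) := by gcongr
            _ = L * δ / R := by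
                rw [div_pow, mul_pow, hσk, pow_succ R k]
                field_simp
            _ ≤ L * δ := div_le_self (by positivity) hR)
      ι v β s hv hs hβ hsep
    refine key.trans (ENNReal.ofReal_le_ofReal ?_)
    have e1 : ρ ^ (-(1 / q)) = (4 * d) ^ (1 / q) * (R * σ⁻¹) ^ (1 / q) := by
      rw [Real.rpow_neg hρ0.le, ← Real.inv_rpow hρ0.le, ← Real.mul_rpow (by positivity) (by positivity)]
      congr 1
      rw [hρ, inv_div]
      field_simp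
    have e2 : (1 + K + L + ((4 * L : ℝ≥0) : ℝ) + S : ℝ) ^ d ≤ 5 ^ d * (1 + K + L + S) ^ d := by
      rw [← mul_pow]
      apply pow_le_pow_left₀ (by positivity)
      push_cast
      nlinarith
    have e3 : (1 : ℝ) ≤ d ^ d := one_le_pow₀ hd1
    rw [e1]
    calc D * (k + 1 : ℝ) ^ ((d : ℝ) ^ 2 * (1 - 1 / q)) * ((4 * d) ^ (1 / q) * (R * σ⁻¹) ^ (1 / q)) *
          (1 + K + L + ((4 * L : ℝ≥0) : ℝ) + S : ℝ) ^ d * δ ^ ((d : ℝ) / q) *
          (Fintype.card ι : ℝ) ^ (1 - 1 / (q * d))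
        = D * (k + 1 : ℝ) ^ ((d : ℝ) ^ 2 * (1 - 1 / q)) * ((4 * d) ^ (1 / q) * (R * σ⁻¹) ^ (1 / q)) *
          (1 + K + L + ((4 * L : ℝ≥0) : ℝ) + S : ℝ) ^ d * Δ := by rw [hΔ]; ring
      _ ≤ D * (k + 1 : ℝ) ^ ((d : ℝ) ^ 2 * (1 - 1 / q)) * ((4 * d) ^ (1 / q) * (R * σ⁻¹) ^ (1 / q)) *
          (5 ^ d * (1 + K + L + S) ^ d * d ^ d) * Δ := by
          apply mul_le_mul_of_nonneg_right _ hΔ0
          apply mul_le_mul_of_nonneg_left _ (by positivity)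
          refine e2.trans ?_
          apply le_mul_of_one_le_right (by positivity) e3
      _ = _ := by rw [hΔ]; ring
  · -- constants on cells of side `δ`
    have hL1 : ∀ v, ‖v‖ ≤ 1 → ‖iteratedFDeriv ℝ 1 b v‖ ≤ L := by
      intro v hv
      have := hA 1 le_rfl (by omega) v hv
      simpa using this
    have hb1 : ContDiff ℝ 1 b := hb.of_le (by exact_mod_cast Nat.le_add_left 1 k)
    have key := hD 0 (d * L) 0 K S b δ δ hδ hδ1 hδ hδ1.le (by
      intro w hw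
      refine ⟨cpol (b w), ?_, ?_, ?_⟩
      · intro j
        unfold cpol
        rw [MvPolynomial.totalDegree_C]
      · apply LipschitzOnWith.of_dist_le_mul
        intro x _ y _
        rw [cpol_eval, cpol_eval, dist_self]
        positivity
      · intro v hv hvw
        rw [cpol_eval]
        refine (lip_unit hb1 hL1 hv hw).trans ?_
        push_cast
        calc L * ‖v - w‖ ≤ L * (d * δ) := by gcongr
          _ = _ := by ring)
      ι v β s hv hs hβ hsep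
    refine key.trans (ENNReal.ofReal_le_ofReal ?_)
    have e1 : δ ^ (-(1 / q)) ≤ (4 * d) ^ (1 / q) * (R * σ⁻¹) ^ (1 / q) := by
      rw [Real.rpow_neg hδ.le, ← Real.inv_rpow hδ.le, ← Real.mul_rpow (by positivity) (by positivity)]
      apply Real.rpow_le_rpow (by positivity) _ (by positivity)
      have h1 : 1 ≤ σ⁻¹ := (one_le_inv₀ hσ0).2 hσ1
      have h2 : δ⁻¹ ≤ 4 * R := by
        rw [inv_le_iff_one_le_mul₀ hδ]
        linarith
      calc δ⁻¹ ≤ 4 * R := h2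
        _ ≤ 4 * d * (R * σ⁻¹) := by
            have h3 : R ≤ R * σ⁻¹ := le_mul_of_one_le_right hR0.le h1
            nlinarith
    have e2 : (1 + K + ((d * L : ℝ≥0) : ℝ) + ((0 : ℝ≥0) : ℝ) + S : ℝ) ^ d ≤
        5 ^ d * (1 + K + L + S) ^ d * d ^ d := by
      rw [← mul_pow, ← mul_pow]
      apply pow_le_pow_left₀ (by positivity)
      push_cast
      nlinarith [mul_nonneg hL0 (sub_nonneg.2 hd1), mul_nonneg hK0 (sub_nonneg.2 hd1),
        mul_nonneg hS0 (sub_nonneg.2 hd1)]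
    have e0 : (((0 : ℕ) : ℝ) + 1) ^ ((d : ℝ) ^ 2 * (1 - 1 / q)) = 1 := by
      rw [Nat.cast_zero, zero_add, Real.one_rpow]
    rw [e0]
    calc D * 1 * δ ^ (-(1 / q)) *
          (1 + K + ((d * L : ℝ≥0) : ℝ) + ((0 : ℝ≥0) : ℝ) + S : ℝ) ^ d * δ ^ ((d : ℝ) / q) *
          (Fintype.card ι : ℝ) ^ (1 - 1 / (q * d))
        = D * 1 * δ ^ (-(1 / q)) *
          (1 + K + ((d * L : ℝ≥0) : ℝ) + ((0 : ℝ≥0) : ℝ) + S : ℝ) ^ d * Δ := by rw [hΔ]; ring
      _ ≤ D * (k + 1 : ℝ) ^ ((d : ℝ) ^ 2 * (1 - 1 / q)) * ((4 * d) ^ (1 / q) * (R * σ⁻¹) ^ (1 / q)) *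
          (5 ^ d * (1 + K + L + S) ^ d * d ^ d) * Δ := by
          gcongr
      _ = _ := by rw [hΔ]; ring

theorem factorial_le_pow (k : ℕ) : ∀ j, 1 ≤ j → j ≤ k + 1 → j.factorial ≤ (k + 1) ^ (j - 1) := by
  intro j hj
  induction j, hj using Nat.le_induction with
  | base => intro _; simp
  | succ j hj ih =>
    intro h
    rw [Nat.factorial_succ]
    obtain ⟨p, rfl⟩ : ∃ p, j = p + 1 := ⟨j - 1, by omega⟩
    have h1 := ih (by omega)
    rw [Nat.add_sub_cancel] at h1 ⊢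
    rw [pow_succ, mul_comm]
    exact Nat.mul_le_mul h1 h

/-- The bound for Gevrey families. -/
theorem gevrey (d : ℕ) (hd : 1 ≤ d) (q : ℝ) (hq : ((d : ℝ) + 1) / d < q) :
    ∃ C : ℝ, 0 < C ∧ ∀ (s₀ : ℝ) (L K S : ℝ≥0) (R : ℝ) (b : Vec d → Vec d), 1 ≤ s₀ → 1 ≤ R →
      ContDiff ℝ (⊤ : ℕ∞) b →
      (∀ j, 1 ≤ j → ∀ v, ‖v‖ ≤ 1 →
        ‖iteratedFDeriv ℝ j b v‖ ≤ L * R ^ (j - 1) * (j.factorial : ℝ) ^ s₀) →
      ∀ δ : ℝ, 0 < δ → δ < 1 → ∀ (ι : Type) [Fintype ι] (v β : ι → Vec d) (s : ι → ℝ),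
        (∀ i, ‖v i‖ ≤ 1) → (∀ i, |s i| ≤ S) → (∀ i, ‖β i - b (v i)‖ ≤ K * δ) →
        (∀ i j, i ≠ j → δ ≤ ‖dir (v i) - dir (v j)‖) →
        eLpNorm (fun y : Space d => ∑ i,
            (tube δ (dir (v i)) (WithLp.toLp 2 (β i + s i • v i, s i))).indicator (fun _ => (1 : ℝ)) y)
            (ENNReal.ofReal q) volume
          ≤ ENNReal.ofReal (C * R ^ (1 / q) *
              (1 + Real.log (1 / δ)) ^ ((d : ℝ) ^ 2 * (1 - 1 / q) + (s₀ - 1) / q) *
              (1 + K + L + S : ℝ) ^ d * δ ^ ((d : ℝ) / q) *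
              (Fintype.card ι : ℝ) ^ (1 - 1 / (q * d))) := by
  obtain ⟨D, hD0, hD⟩ := uniform d hd q hq
  have hd0 : (0 : ℝ) < d := by exact_mod_cast hd
  have hq0 : 0 < q := lt_trans (by positivity) hq
  have hdq : (d : ℝ) + 1 < q * d := by rwa [div_lt_iff₀ hd0] at hq
  have hq1 : 1 ≤ q := by nlinarith
  have hq1' : 0 ≤ 1 - 1 / q := by
    rw [sub_nonneg, div_le_one hq0]; exact hq1
  refine ⟨D * Real.exp (1 / q), by positivity, ?_⟩
  intro s₀ L K S R b hs₀ hR hb hA δ hδ hδ1 ι _ v β s hv hs hβ hsep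
  have hL0 : (0 : ℝ) ≤ L := L.2
  have hK0 : (0 : ℝ) ≤ K := K.2
  have hS0 : (0 : ℝ) ≤ S := S.2
  have hR0 : 0 < R := by linarith
  set ℓ : ℝ := Real.log (1 / δ) with hℓ
  have hℓ0 : 0 < ℓ := Real.log_pos (by rw [lt_div_iff₀ hδ]; linarith)
  set k : ℕ := ⌊ℓ⌋₊ with hk
  have hk1 : (k : ℝ) ≤ ℓ := Nat.floor_le hℓ0.le
  have hk2 : ℓ < k + 1 := Nat.lt_floor_add_one ℓ
  have hk0 : (0 : ℝ) ≤ k := Nat.cast_nonneg k
  have hkk : (1 : ℝ) ≤ (k : ℝ) + 1 := by linarith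
  have hks : 1 ≤ ((k : ℝ) + 1) ^ (s₀ - 1) := Real.one_le_rpow hkk (by linarith)
  have key := hD k L K S (R * ((k : ℝ) + 1) ^ (s₀ - 1)) b
    (by nlinarith) (hb.of_le (by exact_mod_cast le_top)) (by
      intro j hj hjk v hv
      refine (hA j hj v hv).trans ?_
      have hf : (1 : ℝ) ≤ (j.factorial : ℝ) := by exact_mod_cast Nat.factorial_pos j
      have hf0 : (0 : ℝ) < (j.factorial : ℝ) := by linarith
      have h1 : (j.factorial : ℝ) ≤ ((k : ℝ) + 1) ^ (j - 1) := by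
        exact_mod_cast factorial_le_pow k j hj hjk
      have h2 : (j.factorial : ℝ) ^ s₀ ≤ (((k : ℝ) + 1) ^ (s₀ - 1)) ^ (j - 1) * j.factorial := by
        have e1 : (j.factorial : ℝ) ^ s₀ = (j.factorial : ℝ) ^ (s₀ - 1) * j.factorial := by
          rw [← Real.rpow_add_one hf0.ne', sub_add_cancel]
        rw [e1]
        apply mul_le_mul_of_nonneg_right _ hf0.le
        calc (j.factorial : ℝ) ^ (s₀ - 1) ≤ (((k : ℝ) + 1) ^ (j - 1)) ^ (s₀ - 1) :=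
              Real.rpow_le_rpow hf0.le h1 (by linarith)
          _ = (((k : ℝ) + 1) ^ (s₀ - 1)) ^ (j - 1) := by
              rw [← Real.rpow_natCast, ← Real.rpow_mul (by positivity), ← Real.rpow_natCast,
                ← Real.rpow_mul (by positivity), mul_comm]
      calc L * R ^ (j - 1) * (j.factorial : ℝ) ^ s₀
          ≤ L * R ^ (j - 1) * ((((k : ℝ) + 1) ^ (s₀ - 1)) ^ (j - 1) * j.factorial) := by gcongr
        _ = _ := by rw [mul_pow]; ring)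
    δ hδ hδ1 ι v β s hv hs hβ hsep
  refine key.trans (ENNReal.ofReal_le_ofReal ?_)
  have e1 : (R * ((k : ℝ) + 1) ^ (s₀ - 1) * δ ^ (-(1 / ((k : ℝ) + 1)))) ^ (1 / q) ≤
      R ^ (1 / q) * ((k : ℝ) + 1) ^ ((s₀ - 1) / q) * Real.exp (1 / q) := by
    have h1 : δ ^ (-(1 / ((k : ℝ) + 1))) ≤ Real.exp 1 := by
      rw [Real.rpow_def_of_pos hδ]
      apply Real.exp_le_exp.2
      have h2 : Real.log δ = -ℓ := by rw [hℓ, one_div, Real.log_inv, neg_neg]
      rw [h2, neg_mul_neg, mul_one_div, div_le_one (by positivity)]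
      exact hk2.le
    calc (R * ((k : ℝ) + 1) ^ (s₀ - 1) * δ ^ (-(1 / ((k : ℝ) + 1)))) ^ (1 / q)
        ≤ (R * ((k : ℝ) + 1) ^ (s₀ - 1) * Real.exp 1) ^ (1 / q) := by gcongr
      _ = _ := by
          rw [Real.mul_rpow (by positivity) (by positivity), Real.mul_rpow (by positivity) (by positivity),
            ← Real.rpow_mul (by positivity), mul_one_div, ← Real.exp_mul, one_mul]
  have e2 : ((k : ℝ) + 1) ^ ((d : ℝ) ^ 2 * (1 - 1 / q)) * ((k : ℝ) + 1) ^ ((s₀ - 1) / q) ≤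
      (1 + ℓ) ^ ((d : ℝ) ^ 2 * (1 - 1 / q) + (s₀ - 1) / q) := by
    rw [← Real.rpow_add (by positivity)]
    apply Real.rpow_le_rpow (by positivity) (by linarith)
    have : 0 ≤ (s₀ - 1) / q := div_nonneg (by linarith) hq0.le
    positivity
  set Δ : ℝ := (1 + K + L + S : ℝ) ^ d * δ ^ ((d : ℝ) / q) *
    (Fintype.card ι : ℝ) ^ (1 - 1 / (q * d)) with hΔ
  have hΔ0 : 0 ≤ Δ := by positivity
  calc D * (k + 1 : ℝ) ^ ((d : ℝ) ^ 2 * (1 - 1 / q)) *
        (R * ((k : ℝ) + 1) ^ (s₀ - 1) * δ ^ (-(1 / ((k : ℝ) + 1)))) ^ (1 / q) *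
        (1 + K + L + S : ℝ) ^ d * δ ^ ((d : ℝ) / q) * (Fintype.card ι : ℝ) ^ (1 - 1 / (q * d))
      = D * (k + 1 : ℝ) ^ ((d : ℝ) ^ 2 * (1 - 1 / q)) *
        (R * ((k : ℝ) + 1) ^ (s₀ - 1) * δ ^ (-(1 / ((k : ℝ) + 1)))) ^ (1 / q) * Δ := by
        rw [hΔ]; ring
    _ ≤ D * (k + 1 : ℝ) ^ ((d : ℝ) ^ 2 * (1 - 1 / q)) *
        (R ^ (1 / q) * ((k : ℝ) + 1) ^ ((s₀ - 1) / q) * Real.exp (1 / q)) * Δ := by gcongr
    _ = (D * Real.exp (1 / q) * R ^ (1 / q) * Δ) *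
        (((k : ℝ) + 1) ^ ((d : ℝ) ^ 2 * (1 - 1 / q)) * ((k : ℝ) + 1) ^ ((s₀ - 1) / q)) := by ring
    _ ≤ (D * Real.exp (1 / q) * R ^ (1 / q) * Δ) *
        (1 + ℓ) ^ ((d : ℝ) ^ 2 * (1 - 1 / q) + (s₀ - 1) / q) := by gcongr
    _ = _ := by rw [hΔ]; ring

end Pool.Agent.L0h24.Gev
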