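import Pool.Agent.L0h24.Gev.Core

set_option autoImplicit false

/-! Families of lines which are close to polynomial families on small cells. -/

open MeasureTheory Set Topology ENNReal NNReal Metric
open Filter hiding ker pmap

namespace Pool.Agent.L0h24.Gev

open Pool.Agent.H803R2.Kak Pool.Agent.H810R3.Tub

variable {d : ℕ}

/-- The remainder of the Taylor polynomial. -/
theorem taylor' {b : Vec d → Vec d} {k : ℕ} (hb : ContDiff ℝ (k + 1 : ℕ) b) {L R : ℝ} (hL : 0 ≤ L)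
    (hR : 0 ≤ R) (hA : ∀ v, ‖v‖ ≤ 1 →
      ‖iteratedFDeriv ℝ (k + 1) b v‖ ≤ L * R ^ k * (k + 1).factorial) {v w : Vec d}
    (hv : ‖v‖ ≤ 1) (hw : ‖w‖ ≤ 1) :
    ‖b v - pmap (tpol b k w) v‖ ≤ L * R ^ k * (k + 1) * ‖v - w‖ ^ (k + 1) := by
  have h := map_add_eq_sum_add_integral_iteratedFDeriv (f := b) (x := w) (y := v - w) (n := k)
    (fun t _ => by exact_mod_cast hb.contDiffAt)
  rw [add_sub_cancel] at h
  rw [tpol_eval, h, add_sub_cancel_left, norm_smul, norm_inv, Real.norm_natCast]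
  set A : ℝ := L * R ^ k * (k + 1).factorial with hAd
  have hA0 : 0 ≤ A := by positivity
  have hint : ‖∫ t in (0:ℝ)..1, (1 - t) ^ k • iteratedFDeriv ℝ (k + 1) b (w + t • (v - w)) (fun _ => v - w)‖ ≤
      (A * ‖v - w‖ ^ (k + 1)) * |(1:ℝ) - 0| := by
    apply intervalIntegral.norm_integral_le_of_norm_le_const
    intro t ht
    rw [uIoc_of_le zero_le_one] at ht
    have hin : ‖w + t • (v - w)‖ ≤ 1 := by
      have : w + t • (v - w) = (1 - t) • w + t • v := by
        rw [smul_sub, sub_smul, one_smul]; abel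
      rw [this]
      calc ‖(1 - t) • w + t • v‖ ≤ ‖(1 - t) • w‖ + ‖t • v‖ := norm_add_le _ _
        _ = (1 - t) * ‖w‖ + t * ‖v‖ := by
            rw [norm_smul, norm_smul, Real.norm_of_nonneg (by linarith [ht.2]), Real.norm_of_nonneg ht.1.le]
        _ ≤ 1 := by nlinarith [ht.1, ht.2]
    rw [norm_smul, norm_pow, Real.norm_of_nonneg (by linarith [ht.2] : (0:ℝ) ≤ 1 - t)]
    have h1 : (1 - t) ^ k ≤ 1 := pow_le_one₀ (by linarith [ht.2]) (by linarith [ht.1])
    have h2 : ‖iteratedFDeriv ℝ (k + 1) b (w + t • (v - w)) (fun _ => v - w)‖ ≤ A * ‖v - w‖ ^ (k + 1) := by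
      refine (ContinuousMultilinearMap.le_opNorm _ _).trans ?_
      rw [Finset.prod_const, Finset.card_univ, Fintype.card_fin]
      exact mul_le_mul_of_nonneg_right (hA _ hin) (by positivity)
    calc (1 - t) ^ k * ‖iteratedFDeriv ℝ (k + 1) b (w + t • (v - w)) (fun _ => v - w)‖
        ≤ 1 * (A * ‖v - w‖ ^ (k + 1)) := mul_le_mul h1 h2 (norm_nonneg _) zero_le_one
      _ = _ := one_mul _
  rw [sub_zero, abs_one, mul_one] at hint
  have hf : (0 : ℝ) < (k.factorial : ℝ) := by exact_mod_cast Nat.factorial_pos k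
  calc _ ≤ ((k.factorial : ℝ))⁻¹ * (A * ‖v - w‖ ^ (k + 1)) :=
        mul_le_mul_of_nonneg_left hint (by positivity)
    _ = _ := by
        rw [hAd, Nat.factorial_succ]
        push_cast
        field_simp

theorem geom_sum_four (m : ℕ) :
    ∑ j ∈ Finset.range m, (j : ℝ) * (1 / 2) ^ (j - 1) + ((m : ℝ) + 1) * 4 * (1 / 2) ^ m = 4 := by
  induction m with
  | zero => simp
  | succ m ih =>
    rw [Finset.sum_range_succ]
    rcases Nat.eq_zero_or_pos m with h | h
    · subst h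
      norm_num
    · have e : (1 / 2 : ℝ) ^ (m - 1) = 2 * (1 / 2) ^ m := by
        obtain ⟨p, rfl⟩ : ∃ p, m = p + 1 := ⟨m - 1, by omega⟩
        rw [Nat.add_sub_cancel, pow_succ]
        ring
      rw [e, pow_succ]
      push_cast
      linear_combination ih

/-- The Lipschitz constant of the Taylor polynomial near its centre. -/
theorem tpol_lip' {b : Vec d → Vec d} {k : ℕ} {L : ℝ≥0} {R r : ℝ} (hR : 0 ≤ R) (hr : 0 ≤ r)
    (hRr : r * R ≤ 1 / 2) {w : Vec d}
    (hA : ∀ j, 1 ≤ j → j ≤ k → ‖iteratedFDeriv ℝ j b w‖ ≤ L * R ^ (j - 1) * j.factorial) :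
    LipschitzOnWith (4 * L) (pmap (tpol b k w)) (ball w r) := by
  apply LipschitzOnWith.of_dist_le_mul
  intro x hx y hy
  rw [mem_ball, dist_eq_norm] at hx hy
  rw [dist_eq_norm, dist_eq_norm, tpol_eval, tpol_eval, ← Finset.sum_sub_distrib]
  have hL0 : (0 : ℝ) ≤ L := L.2
  calc ‖∑ j ∈ Finset.range (k + 1), ((j.factorial : ℝ)⁻¹ • iteratedFDeriv ℝ j b w (fun _ => x - w) -
        (j.factorial : ℝ)⁻¹ • iteratedFDeriv ℝ j b w (fun _ => y - w))‖
      ≤ ∑ j ∈ Finset.range (k + 1), ‖((j.factorial : ℝ)⁻¹ • iteratedFDeriv ℝ j b w (fun _ => x - w) -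
        (j.factorial : ℝ)⁻¹ • iteratedFDeriv ℝ j b w (fun _ => y - w))‖ := norm_sum_le _ _
    _ ≤ ∑ j ∈ Finset.range (k + 1), L * ((j : ℝ) * (1 / 2) ^ (j - 1)) * ‖x - y‖ := by
        refine Finset.sum_le_sum fun j hj => ?_
        have hjk : j ≤ k := Nat.lt_succ_iff.1 (Finset.mem_range.1 hj)
        have h1 := (iteratedFDeriv ℝ j b w).norm_image_sub_le (fun _ => x - w) (fun _ => y - w)
        rw [Fintype.card_fin] at h1
        have hmx : ‖(fun _ : Fin j => x - w)‖ ≤ r := (pi_norm_le_iff_of_nonneg hr).2 (fun _ => hx.le)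
        have hmy : ‖(fun _ : Fin j => y - w)‖ ≤ r := (pi_norm_le_iff_of_nonneg hr).2 (fun _ => hy.le)
        have hmd : ‖((fun _ : Fin j => x - w) - fun _ : Fin j => y - w)‖ ≤ ‖x - y‖ := by
          apply (pi_norm_le_iff_of_nonneg (norm_nonneg _)).2
          intro i
          show ‖(x - w) - (y - w)‖ ≤ ‖x - y‖
          rw [sub_sub_sub_cancel_right]
        have hmax : max ‖(fun _ : Fin j => x - w)‖ ‖(fun _ : Fin j => y - w)‖ ≤ r := max_le hmx hmy
        have hmax0 : 0 ≤ max ‖(fun _ : Fin j => x - w)‖ ‖(fun _ : Fin j => y - w)‖ :=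
          (norm_nonneg _).trans (le_max_left _ _)
        rw [← smul_sub, norm_smul, norm_inv, Real.norm_natCast]
        rcases Nat.eq_zero_or_pos j with h0 | h0
        · subst h0
          have : iteratedFDeriv ℝ 0 b w (fun _ => x - w) - iteratedFDeriv ℝ 0 b w (fun _ => y - w) = 0 := by
            rw [iteratedFDeriv_zero_apply, iteratedFDeriv_zero_apply, sub_self]
          rw [this]
          simp
        · have hAj := hA j h0 hjk
          have hf : (0 : ℝ) < (j.factorial : ℝ) := by exact_mod_cast Nat.factorial_pos j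
          have hRr0 : 0 ≤ r * R := by positivity
          calc _ ≤ (j.factorial : ℝ)⁻¹ * (‖iteratedFDeriv ℝ j b w‖ * j *
                max ‖(fun _ : Fin j => x - w)‖ ‖(fun _ : Fin j => y - w)‖ ^ (j - 1) *
                ‖((fun _ : Fin j => x - w) - fun _ : Fin j => y - w)‖) :=
                mul_le_mul_of_nonneg_left h1 (by positivity)
            _ ≤ (j.factorial : ℝ)⁻¹ * ((L * R ^ (j - 1) * j.factorial) * j * r ^ (j - 1) * ‖x - y‖) := by
                gcongr
            _ = L * (j * (r * R) ^ (j - 1)) * ‖x - y‖ := by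
                rw [mul_pow]
                field_simp
            _ ≤ L * (j * (1 / 2) ^ (j - 1)) * ‖x - y‖ := by gcongr
    _ ≤ ((4 * L : ℝ≥0) : ℝ) * ‖x - y‖ := by
        rw [← Finset.sum_mul, ← Finset.mul_sum]
        apply mul_le_mul_of_nonneg_right _ (norm_nonneg _)
        have h4 := geom_sum_four (k + 1)
        have h5 : (0 : ℝ) ≤ (((k + 1 : ℕ) : ℝ) + 1) * 4 * (1 / 2) ^ (k + 1) := by positivity
        push_cast at h4 h5 ⊢
        nlinarith

/-- The bound for families of lines which are close to polynomial families on cells. -/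
theorem cells (d : ℕ) (hd : 1 ≤ d) (q : ℝ) (hq : ((d : ℝ) + 1) / d < q) :
    ∃ C : ℝ, 0 < C ∧ ∀ (k : ℕ) (B L K S : ℝ≥0) (b : Vec d → Vec d) (δ ρ : ℝ), 0 < δ → δ < 1 →
      0 < ρ → ρ ≤ 1 →
      (∀ w, ‖w‖ ≤ 1 → ∃ P : Fin d → MvPolynomial (Fin d) ℝ, (∀ j, (P j).totalDegree ≤ k) ∧
        LipschitzOnWith L (pmap P) (ball w (d * ρ + δ)) ∧
        ∀ v, ‖v‖ ≤ 1 → ‖v - w‖ ≤ d * ρ → ‖b v - pmap P v‖ ≤ B * δ) →
      ∀ (ι : Type) [Fintype ι] (v β : ι → Vec d) (s : ι → ℝ),
        (∀ i, ‖v i‖ ≤ 1) → (∀ i, |s i| ≤ S) → (∀ i, ‖β i - b (v i)‖ ≤ K * δ) →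
        (∀ i j, i ≠ j → δ ≤ ‖dir (v i) - dir (v j)‖) →
        eLpNorm (fun y : Space d => ∑ i,
            (tube δ (dir (v i)) (WithLp.toLp 2 (β i + s i • v i, s i))).indicator (fun _ => (1 : ℝ)) y)
            (ENNReal.ofReal q) volume
          ≤ ENNReal.ofReal (C * (k + 1 : ℝ) ^ ((d : ℝ) ^ 2 * (1 - 1 / q)) * ρ ^ (-(1 / q)) *
              (1 + K + B + L + S : ℝ) ^ d * δ ^ ((d : ℝ) / q) *
              (Fintype.card ι : ℝ) ^ (1 - 1 / (q * d))) := by
  classical
  obtain ⟨D, hD0, hD⟩ := lipschitzOn d hd q hq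
  have hd0 : (0 : ℝ) < d := by exact_mod_cast hd
  have hd1 : (1 : ℝ) ≤ d := by exact_mod_cast hd
  have hq0 : 0 < q := lt_trans (by positivity) hq
  have hdq : (d : ℝ) + 1 < q * d := by rwa [div_lt_iff₀ hd0] at hq
  have hq1 : 1 ≤ q := by nlinarith
  have hq1' : 0 ≤ 1 - 1 / q := by
    rw [sub_nonneg, div_le_one hq0]; exact hq1
  refine ⟨D * (2 * (2 * (d : ℝ)) ^ (d ^ 2)) ^ (1 - 1 / q) * (2 * 5 ^ (1 / q)), by positivity, ?_⟩
  intro k B L K S b δ ρ hδ hδ1 hρ0 hρ1 hP ι _ v β s hv hs hβ hsep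
  have hB0 : (0 : ℝ) ≤ B := B.2
  have hL0 : (0 : ℝ) ≤ L := L.2
  have hK0 : (0 : ℝ) ≤ K := K.2
  have hS0 : (0 : ℝ) ≤ S := S.2
  set G : ι → Space d → ℝ := fun i => (tube δ (dir (v i)) (WithLp.toLp 2 (β i + s i • v i, s i))).indicator
    (fun _ => (1 : ℝ)) with hG
  rcases isEmpty_or_nonempty ι with he | hne
  · have : (fun y : Space d => ∑ i, G i y) = fun _ => 0 := by
      funext y
      simp
    rw [this, eLpNorm_zero']
    exact zero_le
  have hN1 : (1 : ℝ) ≤ (Fintype.card ι : ℝ) := by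
    have := Fintype.card_pos (α := ι)
    exact_mod_cast this
  set N : ℝ := (Fintype.card ι : ℝ) with hN
  have hN0 : 0 < N := by linarith
  set θ : ℝ := 1 - 1 / (q * d) with hθ
  have hqd : 1 < q * d := by linarith
  have hθ0 : 0 < θ := by
    rw [hθ, sub_pos, div_lt_one (by linarith)]
    exact hqd
  have hθ1 : θ < 1 := by
    rw [hθ]
    have : 0 < 1 / (q * d) := by positivity
    linarith
  set cl : ι → Fin d → ℤ := fun i => cell ρ (v i) with hcl
  set I : Finset (Fin d → ℤ) := Finset.univ.image cl with hI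
  set M : ℕ := ((max k 1 * d + 1) ^ d) ^ d with hM
  set X : ℝ := D * (1 + M : ℝ) ^ (1 - 1 / q) * (1 + K + B + L + S) ^ d * δ ^ ((d : ℝ) / q) with hX
  have hX0 : 0 ≤ X := by positivity
  have hGm : ∀ i, Measurable (G i) := fun i => measurable_const.indicator (tube_closed _ _ _).measurableSet
  -- one cell
  have hcell : ∀ c ∈ I, eLpNorm (fun y => ∑ i ∈ Finset.univ.filter (fun i => cl i = c), G i y)
      (ENNReal.ofReal q) volume ≤
      ENNReal.ofReal (X * ((Finset.univ.filter (fun i => cl i = c)).card : ℝ) ^ θ) := by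
    intro c hc
    obtain ⟨i₀, _, hi₀⟩ := Finset.mem_image.1 hc
    set w := v i₀ with hw
    have hw1 : ‖w‖ ≤ 1 := hv i₀
    obtain ⟨P, hPd, hPL, hPb⟩ := hP w hw1
    have hclose : ∀ i : {i // cl i = c}, ‖v i.1 - w‖ ≤ d * ρ := fun i =>
      cell_close hρ0 (i.2.trans hi₀.symm)
    have key := hD L (K + B) S M (ball w (d * ρ + δ)) (pmap P) isOpen_ball hPL
      (pmap_fewOn hd (le_max_right k 1) P (fun j => (hPd j).trans (le_max_left k 1)) _)
      δ hδ hδ1 {i // cl i = c} (fun i => v i.1) (fun i => β i.1) (fun i => s i.1)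
      (fun i => hv i.1) (fun i => hs i.1) (by
        intro i
        calc ‖β i.1 - pmap P (v i.1)‖
            = ‖(β i.1 - b (v i.1)) + (b (v i.1) - pmap P (v i.1))‖ := by congr 1; abel
          _ ≤ ‖β i.1 - b (v i.1)‖ + ‖b (v i.1) - pmap P (v i.1)‖ := norm_add_le _ _
          _ ≤ K * δ + B * δ := add_le_add (hβ i.1) (hPb _ (hv i.1) (hclose i))
          _ = ((K + B : ℝ≥0) : ℝ) * δ := by
              push_cast
              ring)
      (fun i j hij => hsep i.1 j.1 (fun h => hij (Subtype.ext h)))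
      (fun i => ball_subset_ball' (by
        rw [dist_eq_norm]
        have := hclose i
        linarith))
    have e1 : (fun y => ∑ i ∈ Finset.univ.filter (fun i => cl i = c), G i y) =
        fun y : Space d => ∑ i : {i // cl i = c}, (tube δ (dir (v i.1))
          (WithLp.toLp 2 (β i.1 + s i.1 • v i.1, s i.1))).indicator (fun _ => (1 : ℝ)) y := by
      funext y
      exact Finset.sum_subtype _ (by simp) (fun i => G i y)
    have e2 : (Finset.univ.filter (fun i => cl i = c)).card = Fintype.card {i // cl i = c} :=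
      (Fintype.card_subtype _).symm
    rw [e1, e2]
    refine key.trans (le_of_eq ?_)
    congr 1
    rw [hX]
    push_cast
    ring
  have hsum : (fun y : Space d => ∑ i, G i y) =
      ∑ c ∈ I, (fun y => ∑ i ∈ Finset.univ.filter (fun i => cl i = c), G i y) := by
    funext y
    rw [Finset.sum_apply]
    exact (Finset.sum_fiberwise_of_maps_to (fun i hi => Finset.mem_image_of_mem cl hi) (fun i => G i y)).symm
  have hNs : ∑ c ∈ I, ((Finset.univ.filter (fun i => cl i = c)).card : ℝ) = N := by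
    rw [hN, ← Nat.cast_sum]
    congr 1
    exact (Finset.card_eq_sum_card_fiberwise (fun i hi => Finset.mem_coe.2 (Finset.mem_image_of_mem cl hi))).symm
  have hcard : (I.card : ℝ) ≤ (5 / ρ) ^ d := cell_card hρ0 hρ1 v hv
  have hconc := sum_rpow_le I (fun c => ((Finset.univ.filter (fun i => cl i = c)).card : ℝ))
    (fun c _ => Nat.cast_nonneg _) hNs hN0 hcard (by positivity) hθ0 hθ1
  have hJ : ((5 / ρ) ^ d) ^ (1 - θ) = 5 ^ (1 / q) * ρ ^ (-(1 / q)) := by
    have e1 : 1 - θ = 1 / (q * d) := by rw [hθ]; ring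
    rw [e1, ← Real.rpow_natCast, ← Real.rpow_mul (by positivity)]
    have e2 : (d : ℝ) * (1 / (q * d)) = 1 / q := by field_simp
    rw [e2, Real.div_rpow (by norm_num) hρ0.le, Real.rpow_neg hρ0.le, div_eq_mul_inv]
  have hMle : (1 + M : ℝ) ^ (1 - 1 / q) ≤
      (2 * (2 * (d : ℝ)) ^ (d ^ 2)) ^ (1 - 1 / q) * (k + 1 : ℝ) ^ ((d : ℝ) ^ 2 * (1 - 1 / q)) := by
    have hk0 : (0 : ℝ) ≤ k := Nat.cast_nonneg k
    have h1 : (((max k 1 * d + 1 : ℕ)) : ℝ) ≤ 2 * d * (k + 1) := by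
      have h2 : max k 1 * d + 1 ≤ 2 * d * (k + 1) := by
        rcases le_total k 1 with h | h
        · rw [max_eq_right h]
          nlinarith
        · rw [max_eq_left h]
          nlinarith
      exact_mod_cast h2
    have h3 : (M : ℝ) ≤ (2 * d) ^ (d ^ 2) * (k + 1 : ℝ) ^ (d ^ 2) := by
      rw [hM]
      push_cast
      push_cast at h1
      rw [← mul_pow, ← pow_mul, sq]
      exact pow_le_pow_left₀ (by positivity) h1 _
    have h4 : (1 : ℝ) ≤ (2 * d) ^ (d ^ 2) * (k + 1 : ℝ) ^ (d ^ 2) := by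
      rw [← mul_pow]
      apply one_le_pow₀
      nlinarith
    have h5 : (1 + M : ℝ) ≤ 2 * (2 * d) ^ (d ^ 2) * (k + 1 : ℝ) ^ (d ^ 2) := by linarith
    calc (1 + M : ℝ) ^ (1 - 1 / q) ≤ (2 * (2 * d) ^ (d ^ 2) * (k + 1 : ℝ) ^ (d ^ 2)) ^ (1 - 1 / q) :=
          Real.rpow_le_rpow (by positivity) h5 hq1'
      _ = _ := by
          rw [Real.mul_rpow (by positivity) (by positivity), ← Real.rpow_natCast (k + 1 : ℝ) (d ^ 2),
            ← Real.rpow_mul (by positivity)]
          push_cast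
          rfl
  rw [hsum]
  refine (eLpNorm_sum_le (fun c _ => (Finset.measurable_sum _ (fun i _ => hGm i)).aestronglyMeasurable)
    (by rw [← ENNReal.ofReal_one]; exact ENNReal.ofReal_le_ofReal hq1)).trans ?_
  calc
    ∑ c ∈ I, eLpNorm (fun y => ∑ i ∈ Finset.univ.filter (fun i => cl i = c), G i y)
        (ENNReal.ofReal q) volume
      ≤ ∑ c ∈ I, ENNReal.ofReal (X * ((Finset.univ.filter (fun i => cl i = c)).card : ℝ) ^ θ) :=
        Finset.sum_le_sum hcell
    _ = ENNReal.ofReal (X * ∑ c ∈ I, ((Finset.univ.filter (fun i => cl i = c)).card : ℝ) ^ θ) := by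
        rw [← ENNReal.ofReal_sum_of_nonneg (fun c _ => by positivity), Finset.mul_sum]
    _ ≤ ENNReal.ofReal (X * (2 * (((5 / ρ) ^ d) ^ (1 - θ) * N ^ θ))) :=
        ENNReal.ofReal_le_ofReal (mul_le_mul_of_nonneg_left hconc hX0)
    _ ≤ ENNReal.ofReal (D * (2 * (2 * (d : ℝ)) ^ (d ^ 2)) ^ (1 - 1 / q) * (2 * 5 ^ (1 / q)) *
          (k + 1 : ℝ) ^ ((d : ℝ) ^ 2 * (1 - 1 / q)) * ρ ^ (-(1 / q)) *
          (1 + K + B + L + S : ℝ) ^ d * δ ^ ((d : ℝ) / q) * N ^ θ) := by
        apply ENNReal.ofReal_le_ofReal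
        rw [hJ, hX]
        calc D * (1 + M : ℝ) ^ (1 - 1 / q) * (1 + K + B + L + S) ^ d * δ ^ ((d : ℝ) / q) *
              (2 * (5 ^ (1 / q) * ρ ^ (-(1 / q)) * N ^ θ))
            = (1 + M : ℝ) ^ (1 - 1 / q) * (D * (1 + K + B + L + S) ^ d * δ ^ ((d : ℝ) / q) *
              (2 * (5 ^ (1 / q) * ρ ^ (-(1 / q)) * N ^ θ))) := by ring
          _ ≤ ((2 * (2 * (d : ℝ)) ^ (d ^ 2)) ^ (1 - 1 / q) *
                (k + 1 : ℝ) ^ ((d : ℝ) ^ 2 * (1 - 1 / q))) *
              (D * (1 + K + B + L + S) ^ d * δ ^ ((d : ℝ) / q) *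
              (2 * (5 ^ (1 / q) * ρ ^ (-(1 / q)) * N ^ θ))) := by
              apply mul_le_mul_of_nonneg_right hMle
              positivity
          _ = _ := by ring

end Pool.Agent.L0h24.Gev
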